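import Pool.Agent.Run7.h34.UG.Alg

/-!
From arbitrary weights to weights of bounded size.
-/

set_option autoImplicit false

open MvPolynomial Pool.Agent.W602.GT Pool.Agent.R869 Pool.Agent.R869.Wd Run7.h34.OK

namespace Run7.h34.UG

variable {n : ℕ}

/-- the pairs of exponents of the same degree and of the same weight -/
noncomputable def lev (n d : ℕ) (b : Fin (n + 1) → ℤ) : Finset (Pr n) :=
  (DD n d ×ˢ DD n d).filter fun x => ∑ l, x.1 l = ∑ l, x.2 l ∧ wgt b x.1 = wgt b x.2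

/-- the sums over the levels of a coarser weight vanish -/
theorem coarser {M : Type*} [AddCommMonoid M] {n : ℕ} (f : (Fin (n + 1) →₀ ℕ) → M)
    (S : Finset (Fin (n + 1) →₀ ℕ)) {H H' : Type*} [DecidableEq H] [DecidableEq H']
    (g : (Fin (n + 1) →₀ ℕ) → H) (h : (Fin (n + 1) →₀ ℕ) → H')
    (hg : ∀ v, ∑ α ∈ S with g α = v, f α = 0)
    (hgh : ∀ α ∈ S, ∀ β ∈ S, g α = g β → h α = h β) (v : H') :
    ∑ α ∈ S with h α = v, f α = 0 := by
  classical
  rw [← Finset.sum_fiberwise_of_maps_to (s := S.filter fun α => h α = v)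
    (t := (S.filter fun α => h α = v).image g) (g := g)
    (fun α hα => Finset.mem_image_of_mem g hα)]
  refine Finset.sum_eq_zero fun u hu => ?_
  obtain ⟨β, hβ, rfl⟩ := Finset.mem_image.1 hu
  rw [Finset.mem_filter] at hβ
  rw [← hg (g β), Finset.filter_filter]
  refine Finset.sum_congr (Finset.filter_congr fun α hα => ?_) fun _ _ => rfl
  constructor
  · exact fun h1 => h1.2
  · exact fun h1 => ⟨(hgh α hα β hβ.1 h1).trans hβ.2, h1⟩

/-- **Bounded weights.** -/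
theorem exists_wt (n d : ℕ) (b : Fin (n + 1) → ℤ) {i j : Fin (n + 1)} (hij : b i ≠ b j) :
    ∃ w : Fin (n + 1) → ℕ, (∀ l, w l ≤ BB n d) ∧ w i ≠ w j ∧
      ∀ α ∈ DD n d, ∀ β ∈ DD n d, ∑ l, α l = ∑ l, β l → wgt b α = wgt b β →
        wgt (fun l => (w l : ℤ)) α = wgt (fun l => (w l : ℤ)) β := by
  obtain ⟨w, h1, h2, h3⟩ := bounded n d (lev n d b) (Finset.filter_subset _ _)
    (fun x hx => (Finset.mem_filter.1 hx).2.1) b (fun x hx => (Finset.mem_filter.1 hx).2.2) hij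
  refine ⟨w, h1, h2, fun α hα β hβ hd hb => ?_⟩
  have h4 := h3 (α, β) (Finset.mem_filter.2 ⟨Finset.mem_product.2 ⟨hα, hβ⟩, hd, hb⟩)
  have h5 : ∀ γ : Fin (n + 1) →₀ ℕ, wgt (fun l => (w l : ℤ)) γ = ((∑ l, w l * γ l : ℕ) : ℤ) := by
    intro γ
    unfold wgt
    push_cast
    exact Finset.sum_congr rfl fun l _ => mul_comm _ _
  rw [h5, h5]
  exact_mod_cast h4

theorem mem_DD_of {k : Type*} [Field k] {G : MvPolynomial (Fin (n + 1)) k} {d : ℕ}
    (hd : G.totalDegree ≤ d) {α : Fin (n + 1) →₀ ℕ} (hα : α ∈ G.support) : α ∈ DD n d := by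
  rw [mem_DD]
  have h1 := (le_totalDegree hα).trans hd
  rwa [Finsupp.sum_fintype _ _ (fun _ => rfl)] at h1

/-- **Bad weights of bounded size.** -/
theorem bad_bounded {k K : Type} [Field k] [Field K] [Algebra k K] {ι : Type}
    {F : ι → MvPolynomial (Fin (n + 1)) k} {d : ℕ} (hF : ∀ e, IsForm (F e))
    (hd : ∀ e, (F e).totalDegree ≤ d) {y : Fin (n + 1) → K} {b : Fin (n + 1) → ℤ}
    (h : Bad F y b) : ∃ w : Fin (n + 1) → ℕ, (∀ l, w l ≤ BB n d) ∧ Bad F y fun l => (w l : ℤ) := by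
  classical
  obtain ⟨⟨i, j, hi, hj, hij⟩, hwc⟩ := h
  obtain ⟨w, h1, h2, h3⟩ := exists_wt n d b hij
  refine ⟨w, h1, ⟨i, j, hi, hj, fun h0 => h2 (Int.ofNat.inj h0)⟩, fun e v => ?_⟩
  obtain ⟨d', hd'⟩ := exp_total (hF e)
  rw [val_wc]
  refine coarser _ (F e).support (fun α => ∑ j, (α j : ℤ) * b j)
    (fun α => ∑ j, (α j : ℤ) * (w j : ℤ)) (fun v => ?_) (fun α hα β hβ hab => ?_) v
  · rw [← val_wc]
    exact hwc e v
  · exact h3 α (mem_DD_of (hd e) hα) β (mem_DD_of (hd e) hβ) ((hd' α hα).trans (hd' β hβ).symm) hab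

end Run7.h34.UG
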