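import Pool.Agent.Run7.h34.UG.An
import Pool.Agent.Run7.h34.UG.Lev
import Pool.Agent.W603.BP.PS

/-!
Holomorphic maps from the punctured disc with highly ramified coordinates.
-/

set_option autoImplicit false

namespace Run7.h34.UG

open MvPolynomial Filter Metric Topology Pool.Agent.H159R3.NV
  Pool.Agent.W602.GT Pool.Agent.W603.BP Pool.Agent.R869 Pool.Agent.TH152.HY Pool.Agent.R869.Wd
  Run7.h34.OK

variable {n : ℕ} {ι : Type}

theorem eval_supp {I : Finset (Fin (n + 1))} (x : Fin (n + 1) → ℂ) (hI : ∀ j, j ∉ I → x j = 0)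
    (S : Finset (Fin (n + 1) →₀ ℕ)) (c : (Fin (n + 1) →₀ ℕ) → ℂ) :
    ∑ α ∈ S, c α * ∏ j, x j ^ α j =
      ∑ α ∈ S.filter (fun α => ∀ j, j ∉ I → α j = 0), c α * ∏ j ∈ I, x j ^ α j := by
  classical
  rw [Finset.sum_filter]
  refine Finset.sum_congr rfl fun α _ => ?_
  split_ifs with h
  · rw [← Finset.prod_subset (Finset.subset_univ I) fun j _ hj => by rw [h j hj, pow_zero]]
  · push Not at h
    obtain ⟨j, hj, hα⟩ := h
    rw [Finset.prod_eq_zero (Finset.mem_univ j) (by rw [hI j hj, zero_pow hα]), mul_zero]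

theorem eval_eq_sum' (x : Fin (n + 1) → ℂ) (G : MvPolynomial (Fin (n + 1)) ℂ) :
    eval x G = ∑ α ∈ G.support, G.coeff α * ∏ j, x j ^ α j := eval_eq' x G

/-- **Holomorphic maps from the punctured disc.** -/
theorem disc {F : ι → MvPolynomial (Fin (n + 1)) ℂ} {d : ℕ} (hF : ∀ e, IsForm (F e))
    (hd : ∀ e, (F e).totalDegree ≤ d) {f : ℂ → Fin (n + 1) → ℂ}
    (hfa : ∀ j, AnalyticOnNhd ℂ (fun z => f z j) (PB 1)) (hf0 : ∀ z ∈ PB 1, f z ≠ 0)
    (hfF : ∀ z ∈ PB 1, ∀ e, eval (f z) (F e) = 0)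
    (hmult : ∀ z ∈ PB 1, (∃ i, Nz (fun w => f w i) ∧ f z i = 0) →
      ∃ i, Nz (fun w => f w i) ∧ (mm n d : ℕ∞) ≤ analyticOrderAt (fun w => f w i) z)
    (hE : ¬ Extends f) :
    ∃ w : Fin (n + 1) → ℕ, (∀ l, w l ≤ BB n d) ∧
      (∃ i j, Nz (fun w => f w i) ∧ Nz (fun w => f w j) ∧ w i ≠ w j) ∧
      ∀ e (v : ℤ), ∀ z ∈ PB 1, eval (f z) (wc (fun l => (w l : ℤ)) v (F e)) = 0 := by
  classical
  by_contra hcon
  apply hE
  have hmem : ∀ z ∈ Ext 1, z⁻¹ ∈ PB 1 := fun z hz => inv_mem_PB one_pos (by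
    rw [inv_one]; exact hz)
  set g : ℂ → Fin (n + 1) → ℂ := fun z => f z⁻¹ with hg
  have hga : ∀ i, AnalyticOnNhd ℂ (fun z => g z i) (Ext 1) := by
    intro i z hz
    have hz0 : z ≠ 0 := ext_ne_zero zero_le_one hz
    exact (hfa i _ (hmem z hz)).comp (analyticAt_inv hz0)
  set I : Finset (Fin (n + 1)) := Finset.univ.filter fun i => ∃ z ∈ Ext 1, g z i ≠ 0 with hIdef
  have hI : ∀ i, i ∈ I ↔ ∃ z ∈ Ext 1, g z i ≠ 0 := fun i => by simp [hIdef]
  have hI0 : ∀ i, i ∉ I → ∀ z ∈ Ext 1, g z i = 0 := by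
    intro i hi z hz
    by_contra h
    exact hi ((hI i).2 ⟨z, hz, h⟩)
  have hIN : ∀ i ∈ I, Nz (fun w => f w i) := by
    intro i hi
    obtain ⟨z, hz, h⟩ := (hI i).1 hi
    exact nz_of_on (hfa i) (hmem z hz) h
  have hmemI : ∀ i, Nz (fun w => f w i) → i ∈ I := by
    intro i hi
    obtain ⟨w, hw, hwne⟩ := nz_on one_pos hi
    refine (hI i).2 ⟨w⁻¹, by simpa using inv_mem_Ext hw, ?_⟩
    simpa [hg] using hwne
  obtain ⟨z1, hz1⟩ := Ext_nonempty 1
  have hne : I.Nonempty := by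
    obtain ⟨i, hi⟩ := Function.ne_iff.1 (hf0 _ (hmem z1 hz1))
    exact ⟨i, (hI i).2 ⟨z1, hz1, hi⟩⟩
  have hs : ∀ e, (F e).support.card ≤ ss n d := fun e =>
    Finset.card_le_card fun α hα => mem_DD_of (hd e) hα
  have hsum : ∀ (S : Finset (Fin (n + 1) →₀ ℕ)) (e : ι), ∀ z ∈ Ext 1,
      ∑ α ∈ S.filter (fun α => ∀ j, j ∉ I → α j = 0), (F e).coeff α * ∏ j ∈ I, g z j ^ α j =
      ∑ α ∈ S, (F e).coeff α * ∏ j, g z j ^ α j := fun S e z hz =>
    (eval_supp (g z) (fun j hj => hI0 j hj z hz) _ _).symm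
  obtain ⟨r, G, a, b, e, hr, hG, hm, hpos, hM⟩ := select (V := Ext 1 → ℂ) (rst 1 (monI I g)) F
    hF hs I (fun e => by
      funext ⟨z, hz⟩
      simp only [Finset.sum_apply, Pi.smul_apply, smul_eq_mul, rst, Pi.zero_apply, monI]
      rw [hsum _ _ z hz, ← eval_eq_sum']
      exact hfF _ (hmem z hz) e) (by
      rintro b ⟨i, hi, j, hj, hij⟩
      by_contra hno
      push Not at hno
      apply hcon
      obtain ⟨w, h1, h2, h3⟩ := exists_wt n d b hij
      refine ⟨w, h1, ⟨i, j, hIN i hi, hIN j hj, h2⟩, fun e v z hz => ?_⟩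
      have hzE : z⁻¹ ∈ Ext 1 := by simpa using inv_mem_Ext hz
      have hfz : f z = g z⁻¹ := by
        simp only [hg, inv_inv]
      obtain ⟨d', hd'⟩ := exp_total (hF e)
      have h4 : eval (f z) (wc (fun l => (w l : ℤ)) v (F e)) =
          ∑ α ∈ (F e).support with ∑ j, (α j : ℤ) * (w j : ℤ) = v,
            (F e).coeff α * ∏ j, f z j ^ α j := by
        unfold wc
        rw [map_sum]
        refine Finset.sum_congr rfl fun α _ => ?_
        rw [eval_monomial, Finsupp.prod_fintype _ _ (fun j => pow_zero _)]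
      rw [h4]
      refine coarser _ (F e).support (fun α => wgt b α)
        (fun α => ∑ j, (α j : ℤ) * (w j : ℤ)) (fun v' => ?_) (fun α hα β hβ hab => ?_) v
      · have h5 := congrFun (hno e v') ⟨z⁻¹, hzE⟩
        simp only [Finset.sum_apply, Pi.smul_apply, smul_eq_mul, rst, Pi.zero_apply, monI] at h5
        rw [hfz, ← hsum _ e z⁻¹ hzE, ← h5, Finset.filter_filter, Finset.filter_filter]
        refine Finset.sum_congr (Finset.filter_congr fun α _ => ?_) fun _ _ => rfl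
        constructor
        · rintro ⟨h1, h2⟩
          exact ⟨h2, h1⟩
        · rintro ⟨h1, h2⟩
          exact ⟨h2, h1⟩
      · exact h3 α (mem_DD_of (hd e) hα) β (mem_DD_of (hd e) hβ)
          ((hd' α hα).trans (hd' β hβ).symm) hab)
  have hdeg : ∀ l, ∃ d, ∀ α ∈ (F (e l)).support, ∑ j, α j = d := fun l =>
    exp_total (hF (e l))
  choose dd hdd using hdeg
  have hM' := unif' n d r (fun l => ((G l).e (a l), (G l).e (b l))) I hr
    (fun l => ⟨mem_DD_of (hd _) (hG l _).1, mem_DD_of (hd _) (hG l _).1⟩) hM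
  let A : FamA 1 n (ss n d) (n * tri (ss n d - 1)) :=
    { f := g
      U := ∅
      f_an := hga
      f_ne := fun z hz => hf0 _ (hmem z hz)
      f_U := fun i hi => absurd hi (Set.notMem_empty i)
      I := I
      hI := hI
      ne := hne
      r := r
      G := G
      a := a
      b := b
      d := dd
      M := MM n d
      deg := fun l i => hdd l _ (hG l i).1
      supp := fun l i j hj => (hG l i).2 j hj
      pos := ss_pos n d
      size := hm
      tot := tri_le_mul hr _ hm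
      full := hM' }
  have hmain := amain A one_pos fun z hz c hc hc0 => by
    obtain ⟨i, hi⟩ := hc0
    have hz0 : z ≠ 0 := ext_ne_zero zero_le_one hz
    -- the orders of `f` at `z⁻¹`
    have hordf : ∀ j, analyticOrderAt (fun w => g w j) z = analyticOrderAt (fun w => f w j) z⁻¹ := by
      intro j
      have h1 : (fun w => g w j) = (fun w => f w j) ∘ (fun w : ℂ => w⁻¹) := rfl
      rw [h1]
      refine (analyticOrderAt_comp_of_deriv_ne_zero (analyticAt_inv hz0) ?_)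
      rw [deriv_inv]
      exact neg_ne_zero.2 (inv_ne_zero (pow_ne_zero _ hz0))
    have hci : analyticOrderAt (fun w => f w i.1) z⁻¹ = c i := by
      rw [← hordf]
      exact hc i
    have hzero : f z⁻¹ i.1 = 0 := by
      by_contra h0
      have h1 := (hfa i.1 _ (hmem z hz)).analyticOrderAt_eq_zero.mpr h0
      rw [hci] at h1
      exact hi (by exact_mod_cast h1)
    obtain ⟨i', hi', hle⟩ := hmult _ (hmem z hz) ⟨i.1, hIN i.1 i.2, hzero⟩
    refine ⟨⟨i', hmemI i' hi'⟩, ?_⟩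
    have h1 : analyticOrderAt (fun w => f w i') z⁻¹ = c ⟨i', hmemI i' hi'⟩ := by
      rw [← hordf]
      exact hc ⟨i', hmemI i' hi'⟩
    rw [h1] at hle
    have h2 : mm n d ≤ c ⟨i', hmemI i' hi'⟩ := by exact_mod_cast hle
    refine lt_of_lt_of_le ?_ h2
    unfold mm
    exact Nat.lt_succ_self _
  have hP : ∀ j, Pun (fun w => f w j) := fun j => on_pun one_pos (hfa j)
  apply extends_of f hfa fun w hw => hf0 w hw
  intro i i0 hi hi0
  obtain ⟨R, hR, R0, hRe⟩ := hmain i i0 (hmemI i hi) (hmemI i0 hi0)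
  refine ⟨fun w => R w⁻¹, hR, ev_iff.2 ⟨(max R0 1)⁻¹, by positivity, fun w hw => ?_⟩⟩
  have h2 := hRe w⁻¹ (by
    have h3 := inv_mem_Ext hw
    rw [inv_inv] at h3
    exact lt_of_le_of_lt (le_max_left _ _) h3)
  have h3 : ∀ i, A.f w⁻¹ i = f w i := fun i => by
    change f (w⁻¹)⁻¹ i = f w i
    rw [inv_inv]
  rw [h3, h3] at h2
  exact h2

end Run7.h34.UG
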