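import Pool.Agent.TH152.HY.QMain
import Pool.Agent.Run7.h34.UG.Disc

/-!
Quasi-projective varieties with a morphism to projective space, highly ramified over the coordinate
hyperplanes, with a uniform bound for the order of ramification.
-/

set_option autoImplicit false

open MvPolynomial Metric Filter Topology

namespace Run7.h34.UG

open Pool.Agent.W602.Cov Pool.Agent.W602.Cov.Cover Pool.Agent.W602.Cov.R Pool.Agent.W603.BP
open Pool.Agent.W601.PH Pool.Agent.W602.Cov.G Pool.Agent.W602.GT Pool.Agent.TH152.HY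
open Pool.Agent.R869.Wd Run7.h34.OK

variable {N n d : ℕ} {ι : Type}

/-- the coordinate hyperplanes of `P^n` -/
abbrev Crd (n : ℕ) : Fin (n + 1) → Form n := fun i => LinearMap.proj i

/-- The forms of the system vanish identically on the curve `t ↦ (x_0 t^(w_0), …, x_n t^(w_n))`. -/
def OnGroup (F : ι → MvPolynomial (Fin (n + 1)) ℂ) (w : Fin (n + 1) → ℕ) {L : Type} [Field L]
    [Algebra ℂ L] (x : Fin (n + 1) → L) : Prop :=
  ∀ e, aeval (fun j => (Polynomial.C (x j) * Polynomial.X ^ w j : Polynomial L)) (F e) = 0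

/-- The point `x` lies on a coordinate hyperplane, or the variety `F = 0` contains the curve
`t ↦ (x_0 t^(w_0), …, x_n t^(w_n))` for some exponents `w_j ≤ B` which are not all equal. -/
def Special (F : ι → MvPolynomial (Fin (n + 1)) ℂ) (B : ℕ) {L : Type} [Field L] [Algebra ℂ L]
    (x : Fin (n + 1) → L) : Prop :=
  (∃ j, x j = 0) ∨ ∃ w : Fin (n + 1) → ℕ, (∀ j, w j ≤ B) ∧ (∃ i j, w i ≠ w j) ∧ OnGroup F w x

/-- the parts of given weight -/
theorem coeff_group {L : Type} [Field L] [Algebra ℂ L] (w : Fin (n + 1) → ℕ)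
    (x : Fin (n + 1) → L) (G : MvPolynomial (Fin (n + 1)) ℂ) (v : ℕ) :
    (aeval (fun j => (Polynomial.C (x j) * Polynomial.X ^ w j : Polynomial L)) G).coeff v =
      val x (wc (fun j => (w j : ℤ)) v G) := by
  rw [val_wc, aeval_def, eval₂_eq', Polynomial.finsetSum_coeff, Finset.sum_filter]
  refine Finset.sum_congr rfl fun α _ => ?_
  have h1 : ∏ j, (Polynomial.C (x j) * Polynomial.X ^ w j : Polynomial L) ^ α j =
      Polynomial.C (∏ j, x j ^ α j) * Polynomial.X ^ (∑ j, α j * w j) := by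
    simp only [mul_pow, Finset.prod_mul_distrib, map_prod, map_pow, ← pow_mul]
    rw [Finset.prod_pow_eq_pow_sum]
    congr 2
    exact Finset.sum_congr rfl fun j _ => mul_comm _ _
  have h2 : algebraMap ℂ (Polynomial L) (G.coeff α) =
      Polynomial.C (algebraMap ℂ L (G.coeff α)) := rfl
  rw [h1, h2, Polynomial.coeff_C_mul, Polynomial.coeff_C_mul, Polynomial.coeff_X_pow]
  have h3 : (v = ∑ j, α j * w j) ↔ (∑ j, (α j : ℤ) * (w j : ℤ) = v) := by
    constructor
    · intro h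
      rw [h]
      push_cast
      rfl
    · intro h
      exact_mod_cast h.symm
  by_cases hv : v = ∑ j, α j * w j
  · rw [if_pos hv, if_pos (h3.1 hv), mul_one]
  · rw [if_neg hv, if_neg fun h => hv (h3.2 h), mul_zero, mul_zero]

theorem onGroup_iff {F : ι → MvPolynomial (Fin (n + 1)) ℂ} {w : Fin (n + 1) → ℕ} {L : Type}
    [Field L] [Algebra ℂ L] {x : Fin (n + 1) → L} :
    OnGroup F w x ↔ ∀ e (v : ℤ), val x (wc (fun j => (w j : ℤ)) v (F e)) = 0 := by
  constructor
  · intro h e v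
    rcases lt_or_ge v 0 with hv | hv
    · rw [val_wc]
      refine Finset.sum_eq_zero fun α hα => ?_
      exfalso
      have h1 := (Finset.mem_filter.1 hα).2
      have h2 : (0 : ℤ) ≤ ∑ j, (α j : ℤ) * (w j : ℤ) := Finset.sum_nonneg fun j _ => by positivity
      omega
    · obtain ⟨m, rfl⟩ := Int.eq_ofNat_of_zero_le hv
      rw [← coeff_group, h e, Polynomial.coeff_zero]
  · intro h e
    ext v
    rw [coeff_group, h e v, Polynomial.coeff_zero]

/-- the systems of forms of degree at most `d` -/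
def Deg (d : ℕ) (F : ι → MvPolynomial (Fin (n + 1)) ℂ) : Prop :=
  ∀ e, ∃ d', d' ≤ d ∧ (F e).IsHomogeneous d'

theorem Deg.form {F : ι → MvPolynomial (Fin (n + 1)) ℂ} (h : Deg d F) : ∀ e, IsForm (F e) :=
  fun e => ⟨_, (h e).choose_spec.2⟩

theorem Deg.le {F : ι → MvPolynomial (Fin (n + 1)) ℂ} (h : Deg d F) :
    ∀ e, (F e).totalDegree ≤ d := fun e =>
  ((h e).choose_spec.2.totalDegree_le).trans (h e).choose_spec.1

/-- ramification in terms of the orders of the coordinates -/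
theorem ram_ord {X D : BiSet N n} {m : ℕ} (hram : RamifiedOff X D (Crd n) m) {L : Type} [Field L]
    [Algebra ℂ L] {a : Fin (N + 1) → L} {b : Fin (n + 1) → L} (hmem : X.Mem a b)
    (hb : ∀ i, b i ≠ 0) (P : FF.Place ℂ L) (hP : ¬ CentreIn D a b P) (i j : Fin (n + 1))
    (hij : P.ord (b i) ≠ P.ord (b j)) :
    ∃ i' j', b i' ≠ 0 ∧ b j' ≠ 0 ∧ (m : ℤ) ≤ P.ord (b i') - P.ord (b j') := by
  have hf : ∀ i, formK (Crd n i) b = b i := fun i => Pool.Agent.W521.RC.GNB.lf_proj b i
  obtain ⟨j0, hj0, hmin⟩ := Pool.Agent.W603.GR.exists_min P hmem.2.1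
  obtain ⟨i', hi'⟩ := hram L a b hmem (fun i => by rw [hf]; exact hb i) P hP (P.ord (b j0))
    (fun i => (P.ord (b i) - P.ord (b j0)).toNat) ⟨fun j hj => hmin j hj, j0, hj0, rfl⟩
    (fun i => by
      rw [hf, Int.toNat_of_nonneg (sub_nonneg.2 (hmin i (hb i)))]
      ring) (fun h0 => hij (by
        have h1 : ∀ i, P.ord (b i) = P.ord (b j0) := fun i => by
          have h2 : (P.ord (b i) - P.ord (b j0)).toNat = 0 := congrFun h0 i
          have h3 := hmin i (hb i)
          omega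
        rw [h1 i, h1 j]))
  refine ⟨i', j0, hb i', hj0, ?_⟩
  have h3 := hmin i' (hb i')
  omega

/-- **Subvarieties.** -/
theorem sub_lgt {F : ι → MvPolynomial (Fin (n + 1)) ℂ} (hF : Deg d F) {X D : BiSet N n}
    (hram : RamifiedOff X D (Crd n) (mm n d)) {L : Type} [Field L] [Algebra ℂ L]
    {a : Fin (N + 1) → L} {b : Fin (n + 1) → L} (hmem : X.Mem a b)
    (hFb : ∀ e, aeval b (F e) = 0) {r : ℕ} (hr : 0 < r) (htr : Algebra.trdeg ℂ L = r)
    (halg : Algebra.IsAlgebraic
      (IntermediateField.adjoin ℂ {f : L | ∃ i j, b j ≠ 0 ∧ f = b i / b j}) L)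
    (hS : ¬ Special F (BB n d) b) : LogGeneralType ℂ L r (CentreIn D a b) := by
  by_contra hgt
  have hb : ∀ i, b i ≠ 0 := fun i h => hS (Or.inl ⟨i, h⟩)
  obtain ⟨b', hb'⟩ := weights hF.form hF.le hr htr hmem.2.1 halg hFb
    (fun P hP i j _ _ hij => ram_ord hram hmem hb P hP i j hij) hgt
  obtain ⟨w, hw, ⟨i, j, -, -, hij⟩, hwc⟩ := bad_bounded hF.form hF.le hb'
  exact hS (Or.inr ⟨w, hw, ⟨i, j, fun h => hij (congrArg (Nat.cast : ℕ → ℤ) h)⟩,
    onGroup_iff.2 hwc⟩)

theorem ord_ne_top {g : ℂ → ℂ} (hg : AnalyticOnNhd ℂ g (PB 1)) (hn : Nz g) {z : ℂ}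
    (hz : z ∈ PB 1) : analyticOrderAt g z ≠ ⊤ := by
  intro h
  rw [analyticOrderAt_eq_top] at h
  obtain ⟨w, hw, hne⟩ := nz_on one_pos hn
  exact hne (hg.eqOn_zero_of_preconnected_of_eventuallyEq_zero (PB_preconn one_pos) hz h hw)

/-- **Holomorphic maps from the punctured disc.** -/
theorem disc_special {F : ι → MvPolynomial (Fin (n + 1)) ℂ} (hF : Deg d F) {X D : BiSet N n}
    (hram : RamifiedOff X D (Crd n) (mm n d)) {u : ℂ → Fin (N + 1) → ℂ}
    {v : ℂ → Fin (n + 1) → ℂ} (huv : QDisc X D u v)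
    (hV : ∀ z ∈ ball (0 : ℂ) 1 \ {0}, ∀ e, eval (v z) (F e) = 0) (hE : ¬ Extends v) :
    ∀ z ∈ ball (0 : ℂ) 1 \ {0}, Special F (BB n d) (v z) := by
  have hv := fun j => an_of_diffOn huv.diffv j
  intro z hz
  by_cases hnz : ∀ j, Nz fun w => v w j
  swap
  · push Not at hnz
    obtain ⟨j, hj⟩ := hnz
    unfold Nz at hj
    rw [not_not] at hj
    exact Or.inl ⟨j, eq_zero_on one_pos (hv j) hj z (mem_disc.1 hz)⟩
  obtain ⟨w, hw, ⟨i, j, -, -, hij⟩, hwc⟩ := disc hF.form hF.le hv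
    (fun z hz => (huv.mem z (mem_disc.2 hz)).1.2.1) (fun z hz => hV z (mem_disc.2 hz))
    (fun z0 hz0 ⟨i, _, hi⟩ => by
      have hfin := fun j => ord_ne_top (hv j) (hnz j) hz0
      obtain ⟨i', hi'⟩ := disc_mult hram huv hz0
        (fun j => (analyticOrderAt (fun z => v z j) z0).toNat)
        (fun j => (ENat.natCast_toNat (hfin j)).symm) (fun h0 => by
          have h1 : (analyticOrderAt (fun z => v z i) z0).toNat = 0 := congrFun h0 i
          have h2 : analyticOrderAt (fun z => v z i) z0 = 0 := by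
            rw [← ENat.natCast_toNat (hfin i), h1]
            rfl
          exact ((hv i z0 hz0).analyticOrderAt_eq_zero.1 h2) hi)
      refine ⟨i', hnz i', ?_⟩
      rw [← ENat.natCast_toNat (hfin i')]
      exact_mod_cast hi') hE
  refine Or.inr ⟨w, hw, ⟨i, j, hij⟩, onGroup_iff.2 fun e v' => ?_⟩
  exact hwc e v' z (mem_disc.1 hz)

/-- **Entire curves.** -/
theorem entire_special {F : ι → MvPolynomial (Fin (n + 1)) ℂ} (hF : Deg d F) {X D : BiSet N n}
    (hram : RamifiedOff X D (Crd n) (mm n d)) {u : ℂ → Fin (N + 1) → ℂ}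
    {v : ℂ → Fin (n + 1) → ℂ} (hu : Differentiable ℂ u) (hv : Differentiable ℂ v)
    (hmem : ∀ z, QMem X D (u z) (v z)) (hV : ∀ z e, eval (v z) (F e) = 0)
    (hne : ∃ z z', ∀ t : ℂ, v z' ≠ t • v z) (z : ℂ) : Special F (BB n d) (v z) := by
  obtain ⟨w, hw, hwz⟩ := sin_point z
  have h1 := disc_special hF hram (u := fun w => u (Complex.sin w⁻¹))
    (v := fun w => v (Complex.sin w⁻¹)) ⟨sin_diff hu, sin_diff hv, fun z _ => hmem _⟩
    (fun z _ e => hV _ e) (by
      obtain ⟨z1, z2, h12⟩ := hne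
      exact sin_not hv (fun z => (hmem z).1.2.1) ⟨z2, z1, h12⟩) w hw
  simp only [hwz] at h1
  exact h1

/-- the bounded weights -/
abbrev Wts (n B : ℕ) : Type := Fin (n + 1) → Fin (B + 1)

/-- The four properties for `X - D`. -/
def Four (X D : BiSet N n) (K : Type) [Field K] [Algebra ℂ K] (a : Fin (N + 1) → K)
    (b : Fin (n + 1) → K) (r : ℕ) : Prop :=
  LogGeneralType ℂ K r (CentreIn D a b) ∧
    ∃ (G : BiPoly N n) (E E' : ℕ), BiHom G E E' ∧
      (∃ u v, QMem X D u v ∧ eval (Sum.elim u v) G ≠ 0) ∧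
      PicardOff X D G ∧ BrodyOff X D G ∧ LangOff X D G

/-- **The main theorem.** -/
theorem four {F : ι → MvPolynomial (Fin (n + 1)) ℂ} (hF : Deg d F) {X D : BiSet N n}
    (hram : RamifiedOff X D (Crd n) (mm n d)) {K : Type} [Field K] [Algebra ℂ K]
    {a : Fin (N + 1) → K} {b : Fin (n + 1) → K} (hK : X.FunctionField K a b)
    (hFb : ∀ e, aeval b (F e) = 0)
    (halg : Algebra.IsAlgebraic
      (IntermediateField.adjoin ℂ {f : K | ∃ i j, b j ≠ 0 ∧ f = b i / b j}) K)
    {r : ℕ} (htr : Algebra.trdeg ℂ K = r) (hr : 0 < r) (hS : ¬ Special F (BB n d) b)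
    (hD : ¬ D.Mem a b) : Four X D K a b r := by
  classical
  choose Dg mm' c hrel using fun i j => exists_rel hK halg i j
  have hb : ∀ i, b i ≠ 0 := fun i h => hS (Or.inl ⟨i, h⟩)
  -- the equations hold on `X`
  have hXF : ∀ {L : Type} [Field L] [Algebra ℂ L] {a' : Fin (N + 1) → L} {b' : Fin (n + 1) → L},
      X.Mem a' b' → ∀ e, aeval b' (F e) = 0 := by
    intro L _ _ a' b' hmem e
    obtain ⟨d', -, hd'⟩ := hF e
    have h1 := (hK.van _ _ _ (biHom_rename (N := N) hd')).1 (by rw [aeval_inr]; exact hFb e)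
    have h2 := null h1 hmem
    rwa [aeval_inr] at h2
  -- the parts which do not vanish
  have hlam : ∀ w : Wts n (BB n d), ∃ Q : MvPolynomial (Fin (n + 1)) ℂ, IsForm Q ∧
      aeval b Q ≠ 0 ∧ ∀ {L : Type} [Field L] [Algebra ℂ L] (x : Fin (n + 1) → L),
        aeval x Q ≠ 0 → (∃ i j, w i ≠ w j) → ¬ OnGroup F (fun j => (w j : ℕ)) x := by
    intro w
    by_cases hw : ∃ i j, w i ≠ w j
    · by_contra hcon
      refine hS (Or.inr ⟨fun j => (w j : ℕ), fun j => Nat.lt_succ_iff.1 (w j).2, ?_, ?_⟩)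
      · obtain ⟨i, j, hij⟩ := hw
        exact ⟨i, j, fun h => hij (Fin.ext h)⟩
      · rw [onGroup_iff]
        intro e v
        by_contra hne
        refine hcon ⟨wc (fun j => ((w j : ℕ) : ℤ)) v (F e), ?_, hne, fun x hx _ hx2 => hx ?_⟩
        · obtain ⟨d', -, hd'⟩ := hF e
          refine ⟨d', IsHomogeneous.sum _ _ _ fun α hα => ?_⟩
          refine isHomogeneous_monomial _ ?_
          have h2 := hd' (mem_support_iff.1 (Finset.mem_filter.1 hα).1)
          rw [← h2, Finsupp.weight_apply, Finsupp.sum, Finsupp.degree_apply]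
          exact Finset.sum_congr rfl fun j _ => by simp
        · exact onGroup_iff.1 hx2 e v
    · exact ⟨1, ⟨0, isHomogeneous_one _ _⟩, by rw [map_one]; exact one_ne_zero,
        fun x _ h => absurd h hw⟩
  choose Q1 hQ1 hQ1b hQ1s using hlam
  choose e1 he1 using hQ1
  let R : MvPolynomial (Fin (n + 1)) ℂ :=
    ∏ i : Fin (N + 1), ∏ j : Fin (N + 1), c i j (mm' i j)
  let Q : MvPolynomial (Fin (n + 1)) ℂ := R * ((∏ i : Fin (n + 1), MvPolynomial.X i) *
    ∏ w : Wts n (BB n d), Q1 w)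
  obtain ⟨E, hQh⟩ : ∃ E, Q.IsHomogeneous E :=
    ⟨_, (IsHomogeneous.prod _ _ _ fun i _ => IsHomogeneous.prod _ _ _ fun j _ =>
      (hrel i j).1.hom _ le_rfl).mul ((IsHomogeneous.prod _ _ _ fun i _ => isHomogeneous_X _ _).mul
      (IsHomogeneous.prod _ _ _ fun w _ => he1 w))⟩
  have hsplit : ∀ {L : Type} [Field L] [Algebra ℂ L] (y : Fin (n + 1) → L), aeval y Q ≠ 0 →
      (∀ i j, aeval y (c i j (mm' i j)) ≠ 0) ∧ ¬ Special F (BB n d) y := by
    intro L _ _ y hy
    simp only [Q, R, map_mul, map_prod, aeval_X] at hy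
    refine ⟨fun i j h0 => hy ?_, ?_⟩
    · rw [Finset.prod_eq_zero (Finset.mem_univ i) (Finset.prod_eq_zero (Finset.mem_univ j) h0),
        zero_mul]
    · rintro (⟨j, hj⟩ | ⟨w, hw, ⟨i, j, hij⟩, hg⟩)
      · exact hy (by rw [Finset.prod_eq_zero (Finset.mem_univ j) hj, zero_mul, mul_zero])
      · let w' : Wts n (BB n d) := fun j => ⟨w j, Nat.lt_succ_iff.2 (hw j)⟩
        have h1 : aeval y (Q1 w') ≠ 0 := fun h0 => hy (by
          rw [Finset.prod_eq_zero (Finset.mem_univ w') h0, mul_zero, mul_zero])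
        exact hQ1s w' y h1 ⟨i, j, fun h => hij (congrArg Fin.val h)⟩ hg
  have hbQ : aeval b Q ≠ 0 := by
    simp only [Q, R, map_mul, map_prod, aeval_X]
    exact mul_ne_zero (Finset.prod_ne_zero_iff.mpr fun i _ =>
      Finset.prod_ne_zero_iff.mpr fun j _ => (hrel i j).2)
      (mul_ne_zero (Finset.prod_ne_zero_iff.mpr fun i _ => hb i)
        (Finset.prod_ne_zero_iff.mpr fun w _ => hQ1b w))
  -- Lang
  have hLang : LangOff X D (rename Sum.inr Q) := by
    intro L _ _ a' b' d hmem _ hne hgen htr hd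
    rw [aeval_inr] at hne
    obtain ⟨h1, h2⟩ := hsplit b' hne
    exact sub_lgt hF hram hmem (hXF hmem) hd htr (alg_sub (fun i j => (hrel i j).1) hmem h1 hgen) h2
  -- Picard
  have hPic : PicardOff X D (rename Sum.inr Q) := by
    rintro u v huv ⟨z0, hz0, hne⟩
    have hv := fun j => an_of_diffOn huv.diffv j
    have hu := fun j => an_of_diffOn huv.diffu j
    have hmem : ∀ z ∈ PB 1, QMem X D (u z) (v z) := fun z hz => huv.mem z (mem_disc.mpr hz)
    have hne' : aeval (v z0) Q ≠ 0 := by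
      rw [← aeval_inr (N := N) Q (u z0) (v z0)]
      exact hne
    obtain ⟨h1, h2⟩ := hsplit (v z0) hne'
    have hE : Extends v := by
      by_contra hE
      exact h2 (disc_special hF hram huv (fun z hz e => hXF (huv.mem z hz).1 e) hE z0 hz0)
    exact ⟨extends_lift (X := conv X) hu (fun z hz => (hmem z hz).1) hE (mem_disc.mp hz0)
      (fib_finite (fun i j => (hrel i j).1) h1), hE⟩
  refine ⟨?_, rename Sum.inr Q, 0, E, biHom_rename hQh, ?_, hPic, brody_of_picard hPic, hLang⟩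
  · exact hLang K a b r hK.mem hD (by rw [aeval_inr]; exact hbQ) hK.gen htr hr
  · -- a point of `X - D`
    have h1 : ∃ F ∈ D.eqs, aeval (Sum.elim a b) F ≠ 0 := by
      by_contra hcon
      push Not at hcon
      exact hD ⟨hK.mem.1, hK.mem.2.1, hcon⟩
    obtain ⟨F', hF', hFab⟩ := h1
    obtain ⟨e, e', he⟩ := D.hom F' hF'
    have h2 : BiHom (F' * rename Sum.inr Q : BiPoly N n) (e + 0) (e' + E) := by
      have := IsWeightedHomogeneous.mul he (biHom_rename (N := N) hQh)
      exact this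
    by_contra hcon
    push Not at hcon
    have h3 := (hK.van _ _ _ h2).2 (fun u v huv => by
      rw [map_mul]
      by_cases hFv : eval (Sum.elim u v) F' = 0
      · rw [hFv, zero_mul]
      · rw [hcon u v ⟨huv, fun hd => hFv (hd.2.2 F' hF')⟩, mul_zero])
    rw [map_mul, aeval_inr] at h3
    exact mul_ne_zero hFab hbQ h3

end Run7.h34.UG
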