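import Pool.Agent.Run7.h34.OK.Alt
import Pool.Agent.R869.WComb

/-!
Uniform bounds for families of exponent vectors of bounded degree.
-/

set_option autoImplicit false

namespace Run7.h34.UG

open Run7.h34.OK Pool.Agent.R869.Wd

variable {n : ℕ}

/-- all differences of coordinate vectors are combinations of the differences of the pairs with
coefficients at most `M` -/
def Full {r : ℕ} (x : Fin r → Pr n) (I : Finset (Fin (n + 1))) (M : ℕ) : Prop :=
  ∀ i ∈ I, ∀ j ∈ I, ∃ (M0 : ℕ) (c : Fin r → ℤ), 0 < M0 ∧ (∀ l, |c l| ≤ M) ∧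
    ∀ t, (M0 : ℤ) * ((if t = i then 1 else 0) - (if t = j then 1 else 0)) =
      ∑ l, c l * (((x l).1 t : ℤ) - (x l).2 t)

theorem Full.mono {r : ℕ} {x : Fin r → Pr n} {I : Finset (Fin (n + 1))} {M M' : ℕ}
    (h : Full x I M) (hM : M ≤ M') : Full x I M' := by
  intro i hi j hj
  obtain ⟨M0, c, h1, h2, h3⟩ := h i hi j hj
  exact ⟨M0, c, h1, fun l => (h2 l).trans (by exact_mod_cast hM), h3⟩

/-- **The uniform bound.** -/
theorem unif (n d : ℕ) : ∃ M : ℕ, ∀ (r : ℕ) (x : Fin r → Pr n) (I : Finset (Fin (n + 1))),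
    r ≤ n → (∀ l, (x l).1 ∈ DD n d ∧ (x l).2 ∈ DD n d) → (∃ M', Full x I M') → Full x I M := by
  classical
  let Cfg : Type := Σ r : Fin (n + 1), (Fin r → (DD n d) × (DD n d)) × Finset (Fin (n + 1))
  let X : ∀ c : Cfg, Fin c.1 → Pr n := fun c l => ((c.2.1 l).1, (c.2.1 l).2)
  have key : ∀ c : Cfg, ∃ M : ℕ, (∃ M', Full (X c) c.2.2 M') → Full (X c) c.2.2 M := by
    intro c
    by_cases h : ∃ M', Full (X c) c.2.2 M'
    · obtain ⟨M', hM'⟩ := h
      exact ⟨M', fun _ => hM'⟩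
    · exact ⟨0, fun h' => absurd h' h⟩
  choose b hb using key
  refine ⟨Finset.univ.sup b, fun r x I hr hx hM => ?_⟩
  have h1 := hb ⟨⟨r, by omega⟩, (fun l => (⟨(x l).1, (hx l).1⟩, ⟨(x l).2, (hx l).2⟩)), I⟩ hM
  exact h1.mono (Finset.le_sup (f := b) (Finset.mem_univ _))

/-- the uniform bound -/
noncomputable def MM (n d : ℕ) : ℕ := (unif n d).choose

theorem unif' (n d : ℕ) : ∀ (r : ℕ) (x : Fin r → Pr n) (I : Finset (Fin (n + 1))),
    r ≤ n → (∀ l, (x l).1 ∈ DD n d ∧ (x l).2 ∈ DD n d) → (∃ M', Full x I M') →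
    Full x I (MM n d) := (unif n d).choose_spec

/-- the number of monomials -/
noncomputable def ss (n d : ℕ) : ℕ := (DD n d).card

theorem ss_pos (n d : ℕ) : 1 ≤ ss n d :=
  Finset.card_pos.2 ⟨0, mem_DD.2 (by simp)⟩

/-- the required order of ramification -/
noncomputable def mm (n d : ℕ) : ℕ :=
  MM n d * (ss n d * (n * Pool.Agent.R869.tri (ss n d - 1)) + 1) + 1

/-- Bounded weights. -/
theorem bounded (n d : ℕ) (X : Finset (Pr n)) (hX : X ⊆ DD n d ×ˢ DD n d)
    (hd : ∀ x ∈ X, ∑ l, x.1 l = ∑ l, x.2 l) (b : Fin (n + 1) → ℤ)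
    (hb : ∀ x ∈ X, wgt b x.1 = wgt b x.2) {i j : Fin (n + 1)} (hij : b i ≠ b j) :
    ∃ w : Fin (n + 1) → ℕ, (∀ l, w l ≤ BB n d) ∧ w i ≠ w j ∧
      ∀ x ∈ X, ∑ l, w l * x.1 l = ∑ l, w l * x.2 l := by
  rcases alt' n d X hX hd i j with ⟨w, h1, h2, h3⟩ | ⟨e, k, -, he, hk⟩
  · exact ⟨w, h1, h2, h3⟩
  · exfalso
    apply hij
    have h1 : ∑ l, ((e : ℤ) * ((if l = i then 1 else 0) - (if l = j then 1 else 0))) * b l =
        (e : ℤ) * (b i - b j) := by
      have h5 : ∀ x, ((e : ℤ) * ((if x = i then 1 else 0) - (if x = j then 1 else 0))) * b x =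
          e * ((if x = i then b x else 0) - (if x = j then b x else 0)) := by
        intro x
        split_ifs <;> ring
      rw [Finset.sum_congr rfl fun x _ => h5 x, ← Finset.mul_sum, Finset.sum_sub_distrib,
        Finset.sum_ite_eq' Finset.univ i, Finset.sum_ite_eq' Finset.univ j]
      simp
    have h2 : ∑ l, ((e : ℤ) * ((if l = i then 1 else 0) - (if l = j then 1 else 0))) * b l = 0 := by
      rw [Finset.sum_congr rfl fun l _ => by rw [hk l, Finset.sum_mul], Finset.sum_comm]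
      refine Finset.sum_eq_zero fun x hx => ?_
      have h3 := hb x hx
      unfold wgt at h3
      have h4 : ∑ l, k x * ((x.1 l : ℤ) - x.2 l) * b l =
          k x * (∑ l, (x.1 l : ℤ) * b l - ∑ l, (x.2 l : ℤ) * b l) := by
        rw [← Finset.sum_sub_distrib, Finset.mul_sum]
        exact Finset.sum_congr rfl fun l _ => by ring
      rw [h4]
      have h5 : ∑ l, (x.1 l : ℤ) * b l = ∑ l, (x.2 l : ℤ) * b l := h3
      rw [h5, sub_self, mul_zero]
    rw [h1] at h2
    have h3 : (e : ℤ) ≠ 0 := by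
      have : 0 < e := he
      exact_mod_cast this.ne'
    exact sub_eq_zero.1 ((mul_eq_zero.1 h2).resolve_left h3)

end Run7.h34.UG
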