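import Pool.Agent.R869.WAn2
import Pool.Agent.R869.WAlg3
import Pool.Agent.Run7.h34.UG.Num

/-!
Families of minimal relations between monomials in functions near infinity: the conclusion, with an
assumption on the orders of the zeros.
-/

set_option autoImplicit false

namespace Run7.h34.UG

open Filter Metric Real Set Topology Pool.Agent.H159R3.NV Pool.Agent.W602.NC Pool.Agent.W602.TL
  Pool.Agent.W603.BP Pool.Agent.W601.PH Pool.Agent.TH152.HY Pool.Agent.R869 Pool.Agent.R869.Wd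

variable {n : ℕ}

section

variable {r0 : ℝ} {s L : ℕ} (A : FamA r0 n s L)

theorem order_main (hr0 : 0 < r0) {z : ℂ} (hz : z ∈ Ext r0) (a : {i // i ∈ A.I} → ℕ)
    (ha : ∀ i : {i // i ∈ A.I}, analyticOrderAt (fun z => A.f z i.1) z = a i)
    (hbig : (∃ i, a i ≠ 0) → ∃ i, A.M * (s * L + 1) < a i) :
    ((∑ i : {i // i ∈ A.I}, A.comb.cs i.1 * a i : ℕ) : ℕ∞) ≤ analyticOrderAt A.P0 z := by
  classical
  by_cases hall : ∀ i, a i = 0
  · rw [Finset.sum_eq_zero fun i _ => by rw [hall i, mul_zero]]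
    simp
  push Not at hall
  obtain ⟨i2, hi2⟩ := hall
  -- a coordinate that does not vanish
  obtain ⟨i1, hi1⟩ := Function.ne_iff.1 (A.f_ne z hz)
  have hi1I : i1 ∈ A.I := (A.hI i1).2 ⟨z, hz, hi1⟩
  have hzero : ∀ i (hi : i ∈ A.I), A.f z i ≠ 0 → a ⟨i, hi⟩ = 0 := by
    intro i hi h
    have h1 := (A.f_an i z hz).analyticOrderAt_eq_zero.mpr h
    rw [ha ⟨i, hi⟩] at h1
    exact_mod_cast h1
  let u : Fin (n + 1) → ℤ := fun i => if h : i ∈ A.I then (a ⟨i, h⟩ : ℤ) else 0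
  have hu : ∀ i (hi : i ∈ A.I), u i = a ⟨i, hi⟩ := fun i hi => dif_pos hi
  have hun : ∀ i, 0 ≤ u i := by
    intro i
    by_cases hi : i ∈ A.I
    · rw [hu i hi]
      exact Nat.cast_nonneg _
    · rw [show u i = 0 from dif_neg hi]
  have hsumI : ∀ g : Fin (n + 1) → ℕ, ∑ j, (g j : ℤ) * u j =
      ((∑ i : {i // i ∈ A.I}, g i.1 * a i : ℕ) : ℤ) := by
    intro g
    rw [← Finset.sum_subset (Finset.subset_univ A.I) (fun j _ hj => by
      rw [show u j = 0 from dif_neg hj, mul_zero]), ← Finset.sum_coe_sort A.I]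
    push_cast
    exact Finset.sum_congr rfl fun i _ => by rw [hu i.1 i.2]
  have hwgt : ∀ α : Fin (n + 1) →₀ ℕ, wgt u α =
      ((∑ i : {i // i ∈ A.I}, α i.1 * a i : ℕ) : ℤ) := fun α => hsumI fun j => α j
  have hex : ∀ l, ∃ p : Fin ((A.G l).m + 1), ∀ i,
      wgt u ((A.G l).e p) ≤ wgt u ((A.G l).e i) := by
    intro l
    obtain ⟨p, -, hp⟩ := Finset.exists_min_image Finset.univ
      (fun i => wgt u ((A.G l).e i)) ⟨0, Finset.mem_univ _⟩
    exact ⟨p, fun i => hp i (Finset.mem_univ i)⟩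
  choose p hp using hex
  have hX : ((s * L + 1 : ℕ) : ℤ) ≤ A.comb.X u := by
    obtain ⟨i3, hi3⟩ := hbig ⟨i2, hi2⟩
    have h1 := A.comb.diff_le u (i := i3.1) (j := i1) i3.2 hi1I
    rw [hu i3.1 i3.2, hu i1 hi1I, hzero i1 hi1I hi1, Nat.cast_zero, sub_zero] at h1
    by_contra hlt
    push Not at hlt
    have h3 : (A.comb.M : ℤ) * A.comb.X u ≤ (A.comb.M : ℤ) * ((s * L + 1 : ℕ) : ℤ) :=
      mul_le_mul_of_nonneg_left hlt.le (Nat.cast_nonneg _)
    have h4 : ((A.M * (s * L + 1) : ℕ) : ℤ) < a i3 := by exact_mod_cast hi3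
    have h5 : (A.comb.M : ℤ) * ((s * L + 1 : ℕ) : ℤ) = ((A.M * (s * L + 1) : ℕ) : ℤ) := by
      push_cast
      rfl
    linarith
  have h2 := A.comb.core1 u (μ := 0) ⟨i1, hi1I, by
    rw [hu i1 hi1I, hzero i1 hi1I hi1, Nat.cast_zero]⟩
    (fun l => wgt u ((A.G l).e (p l))) (fun l i => hp l i) hX
  -- the orders of the Wronskians
  have hw := fun l => AData.fin_ord hr0 (WC_an A.T_an (A.G l)) (WC_ne hr0 A.T_an (A.G l)) hz
  choose w hw using hw
  have h3 : ∀ l, (∑ i, wgt u ((A.G l).e i) - wgt u ((A.G l).e (p l))) ≤ w l + tri (A.G l).m := by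
    intro l
    have h4 := WC_order A.T_an (A.G l) hz (fun α => ∑ i : {i // i ∈ A.I}, α i.1 * a i)
      (fun α => (A.T_ord hz a ha α).ge) (p l)
    rw [hw] at h4
    have h5 : ∑ b, (∑ i : {i // i ∈ A.I}, ((A.G l).e ((p l).succAbove b)) i.1 * a i) ≤
        w l + tri (A.G l).m := by exact_mod_cast h4
    rw [Fin.sum_univ_succAbove _ (p l), add_sub_cancel_left]
    rw [Finset.sum_congr rfl fun b _ => hwgt ((A.G l).e ((p l).succAbove b)), ← Nat.cast_sum]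
    exact_mod_cast h5
  have h6 : analyticOrderAt A.P0 z = ((A.comb.D * ∑ l, w l : ℕ) : ℕ∞) := by
    have e : A.P0 = fun z => ∏ l, WC (monI A.I A.f) (A.G l) z ^ A.comb.D := rfl
    rw [e, analyticOrder_prod (z := z) Finset.univ
      (fun l z => WC (monI A.I A.f) (A.G l) z ^ A.comb.D)
      (fun l _ => (WC_an A.T_an (A.G l) z hz).fun_pow _)]
    have h7 : ∀ l, analyticOrderAt (fun z => WC (monI A.I A.f) (A.G l) z ^ A.comb.D) z =
        ((A.comb.D * w l : ℕ) : ℕ∞) := by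
      intro l
      have e2 : (fun z => WC (monI A.I A.f) (A.G l) z ^ A.comb.D) =
        WC (monI A.I A.f) (A.G l) ^ A.comb.D := rfl
      rw [e2, analyticOrderAt_pow (WC_an A.T_an (A.G l) z hz), hw, nsmul_eq_mul]
      push_cast
      rfl
    rw [Finset.sum_congr rfl fun l _ => h7 l, Finset.mul_sum]
    push_cast
    rfl
  rw [h6]
  have h8 : (A.comb.D : ℤ) * ∑ l, (∑ i, wgt u ((A.G l).e i) - wgt u ((A.G l).e (p l))) ≤
      A.comb.D * (∑ l, (w l : ℤ) + ∑ l, (tri (A.G l).m : ℤ)) := by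
    refine mul_le_mul_of_nonneg_left ?_ (Nat.cast_nonneg _)
    rw [← Finset.sum_add_distrib]
    exact Finset.sum_le_sum fun l _ => h3 l
  have h9 : ((A.comb.D * ∑ l, tri (A.G l).m : ℕ) : ℤ) ≤ (A.I.card : ℤ) * 0 -
      ∑ j, (A.comb.cs j : ℤ) * u j +
      A.comb.D * ∑ l, (∑ i, wgt u ((A.G l).e i) - wgt u ((A.G l).e (p l))) := h2
  rw [hsumI] at h9
  have h10 : ((∑ i : {i // i ∈ A.I}, A.comb.cs i.1 * a i : ℕ) : ℤ) ≤
      ((A.comb.D * ∑ l, w l : ℕ) : ℤ) := by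
    push_cast at h8 h9 ⊢
    linarith
  exact_mod_cast h10

/-- The main analytic statement. -/
theorem amain (hr0 : 0 < r0)
    (hbig : ∀ z ∈ Ext r0, ∀ a : {i // i ∈ A.I} → ℕ,
      (∀ i : {i // i ∈ A.I}, analyticOrderAt (fun z => A.f z i.1) z = a i) →
      (∃ i, a i ≠ 0) → ∃ i, A.M * (s * L + 1) < a i)
    (i i0 : Fin (n + 1)) (hi : i ∈ A.I) (hi0 : i0 ∈ A.I) :
    ∃ R : ℂ → ℂ, MeromorphicAt (fun w => R w⁻¹) 0 ∧ ∃ R0 : ℝ, ∀ z, R0 < ‖z‖ →
      A.f z i = R z * A.f z i0 := by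
  classical
  obtain ⟨z1, hz1, hz1P⟩ := A.P0_ne hr0
  have h := ext_fin (ι := {i // i ∈ A.I}) hr0 (fun i => A.comb.cs i.1) (κ := A.I.card)
    (Nn := A.Nn) (Finset.card_pos.2 A.ne) (C1 := Real.exp A.Cc) (Real.one_le_exp A.Cc_nonneg)
    (U := A.Uf) (fun i => A.f_an i.1) (fun i => (A.hI i.1).1 i.2) (P := A.P0) A.P0_an
    ⟨z1, hz1, hz1P⟩ (fun z hz a ha => order_main A hr0 hz a ha (hbig z hz a ha))
    (fun z ε B hε hε1 hB hball hcalm S hS1 hS => A.point_main hε hε1 hB hball hcalm S hS1 hS)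
    ⟨i0, hi0⟩ ⟨i, hi⟩
  exact h

end

end Run7.h34.UG
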