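import Pool.Agent.W602.GT.KAct
import Pool.Agent.W602.GT.PsOrb
import Pool.Agent.Run7.h34.UG.Main

/-!
The varieties over a given variety: the equivalence with the open part of the torus.
-/

set_option autoImplicit false

open MvPolynomial Metric Filter Topology

namespace Run7.h34.UG

open Pool.Agent.W602.Cov Pool.Agent.W602.Cov.Cover Pool.Agent.W602.Cov.R Pool.Agent.W603.BP
open Pool.Agent.W601.PH Pool.Agent.W602.Cov.G Pool.Agent.W602.GT Pool.Agent.TH152.HY
open Pool.Agent.R869.Wd Run7.h34.OK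

variable {N n d : ℕ} {ι : Type}

/-- `X - D` is a quasi-projective variety of dimension `r > 0`, with function field `K'` and
generic point `(a, b)`; its projection to `P^n` is generically finite onto its image, the image is
dense in the variety `V` with generic point `y`, and the projection is ramified to order at least
`m` over the coordinate hyperplanes. -/
structure Over {K : Type} [Field K] [Algebra ℂ K] (y : Fin (n + 1) → K) (m : ℕ)
    (X D : BiSet N n) (K' : Type) [Field K'] [Algebra ℂ K'] (a : Fin (N + 1) → K')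
    (b : Fin (n + 1) → K') (r : ℕ) : Prop where
  ff : X.FunctionField K' a b
  off : ¬ D.Mem a b
  dom : ∀ G : MvPolynomial (Fin (n + 1)) ℂ, IsForm G → (aeval b G = 0 ↔ aeval y G = 0)
  fin : Algebra.IsAlgebraic
    (IntermediateField.adjoin ℂ {f : K' | ∃ i j, b j ≠ 0 ∧ f = b i / b j}) K'
  dim : Algebra.trdeg ℂ K' = r
  pos : 0 < r
  ram : RamifiedOff X D (Crd n) m

section

variable {K : Type} [Field K] [Algebra ℂ K]

/-- `V` as a closed subset of `P^0 × P^n` -/
def VX (y : Fin (n + 1) → K) : BiSet 0 n where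
  eqs := {G | ∃ P : MvPolynomial (Fin (n + 1)) ℂ, IsForm P ∧ aeval y P = 0 ∧
    G = rename Sum.inr P}
  hom := by
    rintro G ⟨P, ⟨e, he⟩, -, rfl⟩
    exact ⟨0, e, biHom_rename he⟩

/-- the coordinate hyperplanes as a closed subset of `P^0 × P^n` -/
def HD (n : ℕ) : BiSet 0 n where
  eqs := {rename Sum.inr (∏ j : Fin (n + 1), MvPolynomial.X j)}
  hom := by
    rintro G hG
    rw [Set.mem_singleton_iff] at hG
    subst hG
    exact ⟨0, _, biHom_rename (IsHomogeneous.prod _ _ _ fun j _ => isHomogeneous_X _ j)⟩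

theorem hd_hom (n : ℕ) : BiHom (rename Sum.inr (∏ j : Fin (n + 1), MvPolynomial.X j) :
    BiPoly 0 n) 0 (n + 1) := by
  have h := IsHomogeneous.prod (R := ℂ) Finset.univ (fun j : Fin (n + 1) => MvPolynomial.X j)
    (fun _ => 1) fun j _ => isHomogeneous_X _ j
  have h2 : (∑ _j : Fin (n + 1), 1) = n + 1 := by simp
  rw [h2] at h
  exact biHom_rename h

theorem hd_mem {L : Type} [Field L] [Algebra ℂ L] {a : Fin (0 + 1) → L} {b : Fin (n + 1) → L}
    (ha : a ≠ 0) (hb : b ≠ 0) : (HD n).Mem a b ↔ ∃ j, b j = 0 := by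
  constructor
  · rintro ⟨-, -, h⟩
    have h1 := h _ (Set.mem_singleton _)
    rw [aeval_inr, map_prod] at h1
    obtain ⟨j, -, hj⟩ := Finset.prod_eq_zero_iff.1 h1
    rw [aeval_X] at hj
    exact ⟨j, hj⟩
  · rintro ⟨j, hj⟩
    refine ⟨ha, hb, fun G hG => ?_⟩
    rw [show G = _ from hG, aeval_inr, map_prod]
    exact Finset.prod_eq_zero (Finset.mem_univ j) (by rw [aeval_X]; exact hj)

/-- the places with centre on the coordinate hyperplanes -/
theorem centre_iff {L : Type} [Field L] [Algebra ℂ L] {a : Fin (0 + 1) → L}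
    {b : Fin (n + 1) → L} (ha : a ≠ 0) (hb : ∀ j, b j ≠ 0) (P : FF.Place ℂ L) :
    CentreIn (HD n) a b P ↔ OffU Set.univ b P := by
  have hb0 : b ≠ 0 := fun h => hb 0 (congrFun h 0)
  obtain ⟨i0, hi0, hmin⟩ := Pool.Agent.W603.GR.exists_min P hb0
  obtain ⟨k0, hk0, hkmin⟩ := Pool.Agent.W603.GR.exists_min P ha
  have hval : aeval (Sum.elim a b) (rename Sum.inr (∏ j : Fin (n + 1), MvPolynomial.X j) :
      BiPoly 0 n) = ∏ j, b j := by
    rw [aeval_inr, map_prod]
    exact Finset.prod_congr rfl fun j _ => aeval_X _ _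
  have hord : P.ord (∏ j, b j) = ∑ j, P.ord (b j) :=
    ord_prod' P _ _ fun j _ => hb j
  have hsum : ((n + 1 : ℕ) : ℤ) * P.ord (b i0) = ∑ _j : Fin (n + 1), P.ord (b i0) := by
    rw [Finset.sum_const, Finset.card_univ, Fintype.card_fin, nsmul_eq_mul]
  constructor
  · intro h
    by_contra hoff
    unfold OffU at hoff
    push Not at hoff
    rcases h (P.ord (a k0)) (P.ord (b i0)) ⟨hkmin, k0, hk0, rfl⟩ ⟨hmin, i0, hi0, rfl⟩ _
      (Set.mem_singleton _) 0 (n + 1) (hd_hom n) with h1 | h1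
    · rw [hval] at h1
      exact Finset.prod_ne_zero_iff.2 (fun j _ => hb j) h1
    · rw [hval, hord, Nat.cast_zero, zero_mul, zero_add, hsum] at h1
      exact absurd (Finset.sum_le_sum fun j _ => hoff j (Set.mem_univ _) i0 hi0) (not_le.2 h1)
  · rintro ⟨j, -, i, hi, hij⟩ c c' hc hc' G hG E E' hE
    right
    rw [show G = _ from hG] at hE ⊢
    have hne : (rename Sum.inr (∏ j : Fin (n + 1), MvPolynomial.X j) : BiPoly 0 n) ≠ 0 := by
      intro h0
      have h1 : aeval (Sum.elim a b) (rename Sum.inr (∏ j : Fin (n + 1), MvPolynomial.X j) :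
        BiPoly 0 n) = 0 := by rw [h0, map_zero]
      rw [hval] at h1
      exact Finset.prod_ne_zero_iff.2 (fun j _ => hb j) h1
    have hEE := IsWeightedHomogeneous.inj_right hne hE (hd_hom n)
    have hE1 : E = 0 := congrArg Prod.fst hEE
    have hE2 : E' = n + 1 := congrArg Prod.snd hEE
    have hc0 : c' = P.ord (b i0) := by
      obtain ⟨h1, j', hj', h2⟩ := hc'
      have h3 := h1 i0 hi0
      have h4 := hmin j' hj'
      omega
    rw [hval, hord, hE1, hE2, Nat.cast_zero, zero_mul, zero_add, hc0, hsum]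
    refine Finset.sum_lt_sum (fun l _ => hmin l (hb l)) ⟨j, Finset.mem_univ _, ?_⟩
    have h5 := hmin i hi
    omega

/-- no ramification condition for the open part -/
theorem hd_ram (y : Fin (n + 1) → K) (m : ℕ) : RamifiedOff (VX y) (HD n) (Crd n) m := by
  intro L _ _ a b hmem hb P hP c w hc hw hw0
  exfalso
  have hf : ∀ i, formK (Crd n i) b = b i := fun i => Pool.Agent.W521.RC.GNB.lf_proj b i
  have hb' : ∀ i, b i ≠ 0 := fun i => by rw [← hf]; exact hb i
  rw [centre_iff hmem.1 hb' P] at hP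
  unfold OffU at hP
  push Not at hP
  apply hw0
  obtain ⟨h1, j, hj, h2⟩ := hc
  funext i
  have h3 := hP i (Set.mem_univ _) j hj
  have h4 := hw i
  rw [hf] at h4
  have h5 : (w i : ℤ) ≤ 0 := by linarith
  change w i = 0
  omega

/-- a form in the second group of variables from a bihomogeneous form -/
noncomputable def restr (G : BiPoly 0 n) : MvPolynomial (Fin (n + 1)) ℂ :=
  aeval (Sum.elim (fun _ => 1) fun j => MvPolynomial.X j) G

theorem restr_val {L : Type} [Field L] [Algebra ℂ L] (G : BiPoly 0 n) {D D' : ℕ}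
    (hG : BiHom G D D') (a : Fin (0 + 1) → L) (b : Fin (n + 1) → L) :
    aeval (Sum.elim a b) G = a 0 ^ D * aeval b (restr G) := by
  unfold restr
  rw [← AlgHom.comp_apply, comp_aeval, aeval_def, aeval_def, eval₂_eq', eval₂_eq', Finset.mul_sum]
  refine Finset.sum_congr rfl fun α hα => ?_
  have h1 := hG (mem_support_iff.mp hα)
  rw [Finsupp.weight_apply, Finsupp.sum_fintype _ _ (by simp)] at h1
  have h2 := congrArg Prod.fst h1
  rw [Prod.fst_sum] at h2
  simp only [Fintype.sum_sum_type, Sum.elim_inl, Sum.elim_inr, Prod.smul_mk, smul_eq_mul,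
    mul_one, mul_zero, Finset.sum_const_zero, add_zero] at h2
  simp only [Fintype.prod_sum_type, Sum.elim_inl, Sum.elim_inr, map_one, aeval_X, one_pow,
    Finset.prod_const_one, one_mul]
  have h3 : ∏ i : Fin (0 + 1), a i ^ α (Sum.inl i) = a 0 ^ D := by
    rw [← h2]
    simp
  rw [h3]
  ring

theorem restr_form (G : BiPoly 0 n) {D D' : ℕ} (hG : BiHom G D D') : IsForm (restr G) := by
  refine ⟨D', ?_⟩
  unfold restr
  rw [aeval_def, eval₂_eq']
  refine IsHomogeneous.sum _ _ _ fun α hα => ?_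
  have h1 := hG (mem_support_iff.mp hα)
  rw [Finsupp.weight_apply, Finsupp.sum_fintype _ _ (by simp)] at h1
  have h2 := congrArg Prod.snd h1
  rw [Prod.snd_sum] at h2
  simp only [Fintype.sum_sum_type, Sum.elim_inl, Sum.elim_inr, Prod.smul_mk, smul_eq_mul,
    mul_one, mul_zero, Finset.sum_const_zero, zero_add] at h2
  simp only [Fintype.prod_sum_type, Sum.elim_inl, Sum.elim_inr, one_pow,
    Finset.prod_const_one, one_mul]
  have h3 := (isHomogeneous_C (Fin (n + 1)) (G.coeff α)).mul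
    (IsHomogeneous.prod Finset.univ (fun j : Fin (n + 1) => MvPolynomial.X (R := ℂ) j ^ α (Sum.inr j))
      (fun j => α (Sum.inr j)) fun j _ => isHomogeneous_X_pow j _)
  have e : 0 + ∑ i : Fin (n + 1), α (Sum.inr i) = D' := (Nat.zero_add _).trans h2
  rw [e] at h3
  exact h3

/-- the function field of `V` -/
theorem vx_ff {y : Fin (n + 1) → K} (hy0 : y ≠ 0) (hgen : coords ℂ y = ⊤) :
    (VX y).FunctionField K (fun _ => 1) y where
  mem := ⟨fun h => one_ne_zero (congrFun h 0), hy0, by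
    rintro G ⟨P, -, hP, rfl⟩
    rw [aeval_inr]
    exact hP⟩
  van := by
    intro G D D' hG
    rw [restr_val G hG, one_pow, one_mul]
    constructor
    · intro h u v huv
      have h1 : eval (Sum.elim u v) G = aeval (Sum.elim u v) G := rfl
      rw [h1, restr_val G hG]
      have h2 := huv.2.2 _ ⟨restr G, restr_form G hG, h, rfl⟩
      rw [aeval_inr] at h2
      rw [h2, mul_zero]
    · intro h
      by_contra hne
      obtain ⟨i, hi⟩ := Function.ne_iff.1 hy0
      obtain ⟨x, hx, hx0⟩ := specialise y (restr G * X i) (by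
        rw [map_mul, aeval_X]
        exact mul_ne_zero hne hi)
      rw [map_mul, aeval_X] at hx
      have h1 := h (fun _ => 1) x ⟨fun h => one_ne_zero (congrFun h 0), fun h0 =>
        right_ne_zero_of_mul hx (congrFun h0 i), by
        rintro _ ⟨P, -, hP, rfl⟩
        rw [aeval_inr]
        exact hx0 P hP⟩
      have h2 : eval (Sum.elim (fun _ => 1) x) G = aeval (Sum.elim (fun _ => 1) x) G := rfl
      rw [h2, restr_val G hG, one_pow, one_mul] at h1
      exact left_ne_zero_of_mul hx h1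
  gen := by
    rw [eq_top_iff, ← hgen]
    unfold coords
    refine IntermediateField.adjoin.mono ℂ _ _ ?_
    rintro f ⟨i, j, hj, rfl⟩
    exact Or.inr ⟨i, j, hj, rfl⟩

/-- the open part of the torus is a variety over `V` -/
theorem vx_over {F : ι → MvPolynomial (Fin (n + 1)) ℂ} {y : Fin (n + 1) → K} {w : ℕ} (hw : 1 ≤ w)
    (hy : SubVarU Set.univ F K w y) (m : ℕ) :
    Over y m (VX y) (HD n) K (fun _ => 1) y w where
  ff := vx_ff hy.ne hy.gen
  off := by
    rw [hd_mem (fun h => one_ne_zero (congrFun h 0)) hy.ne]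
    rintro ⟨j, hj⟩
    exact hy.unit j (Set.mem_univ _) hj
  dom := fun _ _ => Iff.rfl
  fin := by
    have h : Algebra.IsAlgebraic (coords ℂ y) K := by
      rw [hy.gen]
      infer_instance
    exact h
  dim := hy.dim
  pos := hw
  ram := hd_ram y m

/-- pseudo-Picard hyperbolic -/
def PPicard (X D : BiSet N n) : Prop :=
  ∃ (G : BiPoly N n) (E E' : ℕ), BiHom G E E' ∧
    (∃ u v, QMem X D u v ∧ eval (Sum.elim u v) G ≠ 0) ∧ PicardOff X D G

/-- pseudo-Brody hyperbolic -/
def PBrody (X D : BiSet N n) : Prop :=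
  ∃ (G : BiPoly N n) (E E' : ℕ), BiHom G E E' ∧
    (∃ u v, QMem X D u v ∧ eval (Sum.elim u v) G ≠ 0) ∧ BrodyOff X D G

/-- strongly of log general type -/
def SLogGT (X D : BiSet N n) : Prop :=
  ∃ (G : BiPoly N n) (E E' : ℕ), BiHom G E E' ∧
    (∃ u v, QMem X D u v ∧ eval (Sum.elim u v) G ≠ 0) ∧ LangOff X D G

/-- entire curves in the orbits of one-parameter groups -/
theorem acts_of_brody {y : Fin (n + 1) → K} (hB : PBrody (VX y) (HD n)) (b : Fin (n + 1) → ℤ)
    (hb : Acts Set.univ ℂ y b) (i j : Fin (n + 1)) : b i = b j := by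
  by_contra hij
  obtain ⟨G, E, E', hG, ⟨u, v, ⟨hmem, hoff⟩, hne⟩, hBr⟩ := hB
  have hv0 : ∀ j, v j ≠ 0 := by
    intro j hj
    exact hoff ((hd_mem hmem.1 hmem.2.1).2 ⟨j, hj⟩)
  have hvP : v ∈ PtsU Set.univ ℂ y := by
    refine ⟨⟨hmem.2.1, fun P hP h0 => ?_⟩, fun j _ => hv0 j⟩
    have h1 := hmem.2.2 _ ⟨P, hP, h0, rfl⟩
    rwa [aeval_inr] at h1
  have hc : QEntire (VX y) (HD n) (fun _ => u) (fun z j => Complex.exp ((b j : ℂ) * z) * v j) := by
    have hpow : ∀ (z : ℂ) j, Complex.exp ((b j : ℂ) * z) = Complex.exp z ^ b j := fun z j =>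
      Complex.exp_int_mul z (b j)
    refine ⟨differentiable_const _, ?_, fun z => ?_, ?_⟩
    · rw [differentiable_pi]
      intro j
      exact ((differentiable_id.const_mul (b j : ℂ)).cexp).mul_const _
    · have h1 := hb (Complex.exp z) (Complex.exp_ne_zero z) v hvP
      have h2 : (fun j => Complex.exp ((b j : ℂ) * z) * v j) =
          fun j => Complex.exp z ^ b j * v j := funext fun j => by rw [hpow]
      rw [h2]
      refine ⟨⟨hmem.1, h1.1.1, ?_⟩, fun hm => ?_⟩
      · rintro _ ⟨P, hP, h0, rfl⟩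
        rw [aeval_inr]
        exact h1.1.2 P hP h0
      · obtain ⟨j, hj⟩ := (hd_mem hmem.1 h1.1.1).1 hm
        exact mul_ne_zero (zpow_ne_zero _ (Complex.exp_ne_zero z)) (hv0 j) hj
    · refine ⟨0, 1, Or.inr fun t ht => ?_⟩
      have h1 : ∀ j, Complex.exp (b j : ℂ) = t := by
        intro j
        have h2 := congrFun ht j
        simp only [mul_one, mul_zero, Complex.exp_zero, one_mul, Pi.smul_apply,
          smul_eq_mul] at h2
        exact mul_right_cancel₀ (hv0 j) h2
      have h3 : Complex.exp (b i : ℂ) = Complex.exp (b j : ℂ) := by rw [h1, h1]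
      have h4 : Real.exp (b i : ℝ) = Real.exp (b j : ℝ) := by
        have h5 : (Real.exp (b i : ℝ) : ℂ) = (Real.exp (b j : ℝ) : ℂ) := by
          push_cast
          exact h3
        exact_mod_cast h5
      exact hij (by exact_mod_cast Real.exp_injective h4)
  have h := hBr _ _ hc 0
  apply hne
  simp only [mul_zero, Complex.exp_zero, one_mul] at h
  exact h

/-- one-parameter groups which act on varieties of log general type -/
theorem acts_of_lgt {F : ι → MvPolynomial (Fin (n + 1)) ℂ} {y : Fin (n + 1) → K} {w : ℕ}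
    (hy : SubVarU Set.univ F K w y) (hgt : LogGeneralType ℂ K w (OffU Set.univ y))
    (b : Fin (n + 1) → ℤ) (hb : Acts Set.univ ℂ y b) (i i' : Fin (n + 1)) : b i = b i' := by
  by_contra hne
  have hyn : ∀ j, y j ≠ 0 := fun j => hy.unit j (Set.mem_univ _)
  refine orb_not_gt hy.gen b (hyn i) (hyn i') hne hy.unit (fun G hG h0 v => ?_) hgt
  have hkey : ∀ x : Fin (n + 1) → ℂ, x ∈ PtsU Set.univ ℂ y → val x (wc b v G) = 0 := by
    intro x hx
    exact wc_of_orbit (fun t ht => (hb t ht x hx).1.2 G hG h0) v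
  by_contra hcon
  let R : MvPolynomial (Fin (n + 1)) ℂ := wc b v G * ∏ j, X j
  have hR : aeval y R ≠ 0 := by
    simp only [R, map_mul, map_prod, aeval_X]
    exact mul_ne_zero hcon (Finset.prod_ne_zero_iff.2 fun j _ => hyn j)
  obtain ⟨x, hx, hx0⟩ := specialise y R hR
  simp only [R, map_mul, map_prod, aeval_X] at hx
  have h2 := Finset.prod_ne_zero_iff.1 (right_ne_zero_of_mul hx)
  exact left_ne_zero_of_mul hx (hkey x ⟨⟨fun h0' => h2 i (Finset.mem_univ _) (congrFun h0' i),
    fun G' _ h' => hx0 _ h'⟩, fun j _ => h2 j (Finset.mem_univ _)⟩)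

/-- generic points over `V` are not special -/
theorem not_special {F : ι → MvPolynomial (Fin (n + 1)) ℂ} (hF : Deg d F)
    {y : Fin (n + 1) → K} {w : ℕ} (hy : SubVarU Set.univ F K w y)
    (hc : IsComponentU Set.univ F y)
    (hact : ∀ b : Fin (n + 1) → ℤ, Acts Set.univ ℂ y b → ∀ i j, b i = b j)
    {L : Type} [Field L] [Algebra ℂ L] {b : Fin (n + 1) → L}
    (hdom : ∀ G : MvPolynomial (Fin (n + 1)) ℂ, IsForm G → (aeval b G = 0 ↔ aeval y G = 0))
    (B : ℕ) : ¬ Special F B b := by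
  rintro (⟨j, hj⟩ | ⟨w, -, ⟨i, j, hij⟩, hg⟩)
  · have h1 := (hdom (X j) ⟨1, isHomogeneous_X _ _⟩).1 (by rw [aeval_X]; exact hj)
    rw [aeval_X] at h1
    exact hy.unit j (Set.mem_univ _) h1
  · rw [onGroup_iff] at hg
    apply hij
    have h1 := hact (fun j => (w j : ℤ)) (acts_of_hom fun G hG h0 v => ideal_hom hy hc
      (fun e v => (hdom _ (wc_form (hF.form e) _ v)).1 (hg e v)) G hG h0 v) i j
    exact Int.ofNat.inj h1

/-- **The varieties over `V`.** -/
theorem tfae {F : ι → MvPolynomial (Fin (n + 1)) ℂ} (hF : Deg d F) {y : Fin (n + 1) → K} {w : ℕ}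
    (hw : 1 ≤ w) (hy : SubVarU Set.univ F K w y) (hc : IsComponentU Set.univ F y) :
    [LogGeneralType ℂ K w (OffU Set.univ y),
      ∀ b : Fin (n + 1) → ℤ, Acts Set.univ ℂ y b → ∀ i j, b i = b j,
      ∀ (N : ℕ) (X D : BiSet N n) (K' : Type) [Field K'] [Algebra ℂ K'] (a : Fin (N + 1) → K')
        (b : Fin (n + 1) → K') (r : ℕ), Over y (mm n d) X D K' a b r →
        LogGeneralType ℂ K' r (CentreIn D a b),
      ∀ (N : ℕ) (X D : BiSet N n) (K' : Type) [Field K'] [Algebra ℂ K'] (a : Fin (N + 1) → K')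
        (b : Fin (n + 1) → K') (r : ℕ), Over y (mm n d) X D K' a b r → PPicard X D,
      ∀ (N : ℕ) (X D : BiSet N n) (K' : Type) [Field K'] [Algebra ℂ K'] (a : Fin (N + 1) → K')
        (b : Fin (n + 1) → K') (r : ℕ), Over y (mm n d) X D K' a b r → PBrody X D,
      ∀ (N : ℕ) (X D : BiSet N n) (K' : Type) [Field K'] [Algebra ℂ K'] (a : Fin (N + 1) → K')
        (b : Fin (n + 1) → K') (r : ℕ), Over y (mm n d) X D K' a b r → SLogGT X D].TFAE := by
  have key : (∀ b : Fin (n + 1) → ℤ, Acts Set.univ ℂ y b → ∀ i j, b i = b j) →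
      ∀ (N : ℕ) (X D : BiSet N n) (K' : Type) [Field K'] [Algebra ℂ K'] (a : Fin (N + 1) → K')
        (b : Fin (n + 1) → K') (r : ℕ), Over y (mm n d) X D K' a b r → Four X D K' a b r := by
    intro hact N X D K' _ _ a b r h
    exact four hF h.ram h.ff (fun e => (h.dom (F e) (hF.form e)).2 (hy.mem e)) h.fin h.dim h.pos
      (not_special hF hy hc hact h.dom _) h.off
  have hover := vx_over hw hy (mm n d)
  tfae_have 1 → 2 := fun h b hb i j => acts_of_lgt hy h b hb i j
  tfae_have 2 → 3 := fun h N X D K' _ _ a b r ho => (key h N X D K' a b r ho).1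
  tfae_have 2 → 4 := fun h N X D K' _ _ a b r ho => by
    obtain ⟨G, E, E', h1, h2, h3, -, -⟩ := (key h N X D K' a b r ho).2
    exact ⟨G, E, E', h1, h2, h3⟩
  tfae_have 2 → 6 := fun h N X D K' _ _ a b r ho => by
    obtain ⟨G, E, E', h1, h2, -, -, h3⟩ := (key h N X D K' a b r ho).2
    exact ⟨G, E, E', h1, h2, h3⟩
  tfae_have 3 → 1 := fun h => by
    have h1 := h 0 (VX y) (HD n) K (fun _ => 1) y w hover
    have h2 : CentreIn (HD n) (fun _ => 1) y = OffU Set.univ y := funext fun P => propext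
      (centre_iff (fun h => one_ne_zero (congrFun h 0)) (fun j => hy.unit j (Set.mem_univ _)) P)
    rwa [h2] at h1
  tfae_have 4 → 5 := fun h N X D K' _ _ a b r ho => by
    obtain ⟨G, E, E', h1, h2, h3⟩ := h N X D K' a b r ho
    exact ⟨G, E, E', h1, h2, brody_of_picard h3⟩
  tfae_have 5 → 2 := fun h b hb i j =>
    acts_of_brody (h 0 (VX y) (HD n) K (fun _ => 1) y w hover) b hb i j
  tfae_have 6 → 3 := fun h N X D K' _ _ a b r ho => by
    obtain ⟨G, E, E', h1, ⟨u, v, h2, hne⟩, h3⟩ := h N X D K' a b r ho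
    refine h3 K' a b r ho.ff.mem ho.off (fun h0 => hne ?_) ho.ff.gen ho.dim ho.pos
    exact (ho.ff.van G E E' h1).1 h0 u v h2.1
  tfae_finish

end

end Run7.h34.UG
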